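import Pool.Agent.Helper86.RR.Growth
import Pool.Agent.Helper86.MQ.Defs
import Pool.Agent.Helper26.GT.Defs

/-!
# Maps with a dominant last component: orbits of maximal growth
-/

set_option autoImplicit false

namespace Pool.Agent.Helper86.GT

open MvPolynomial Filter Topology
open Pool.Agent.Helper86.MQ (pm)
open Pool.Agent.Helper86.RR (eval_ne_zero eval_le finite_of_shift_set)
open Pool.Agent.Helper26.GT (wd Dom)

/-- Real sequences of maximal growth: `ρ (n + 1) - e * ρ n` tends to infinity for `e < d`. -/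
theorem incr {d e : ℕ} (hd : 2 ≤ d) (he : e < d) (ρ : ℕ → ℝ) (c : ℝ) (hc : 0 ≤ c)
    (hstep : ∀ n, ρ (n + 1) ≤ c + d * ρ n) (ε : ℝ) (hε : 0 < ε)
    (hinf : ∀ N, ∃ n, N ≤ n ∧ ε * (d : ℝ) ^ n ≤ ρ n) (M : ℝ) :
    ∃ N, ∀ n, N ≤ n → e * ρ n + M ≤ ρ (n + 1) := by
  have hd2 : (2 : ℝ) ≤ d := by exact_mod_cast hd
  have hed : (e : ℝ) + 1 ≤ d := by exact_mod_cast he
  have he0 : (0 : ℝ) ≤ e := Nat.cast_nonneg e
  set c' : ℝ := c / (d - 1) with hc'
  have hc'0 : 0 ≤ c' := div_nonneg hc (by linarith)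
  have hc'e : c' * (d - 1) = c := by
    rw [hc']
    exact div_mul_cancel₀ c (by linarith : (d : ℝ) - 1 > 0).ne'
  set s : ℕ → ℝ := fun n => (ρ n + c') / (d : ℝ) ^ n with hs
  have hpos : ∀ n, (0 : ℝ) < (d : ℝ) ^ n := fun n => by positivity
  have hanti : Antitone s := by
    refine antitone_nat_of_succ_le fun n => ?_
    simp only [hs]
    rw [div_le_div_iff₀ (hpos _) (hpos _), pow_succ]
    have h1 := hstep n
    have h2 : ρ (n + 1) + c' ≤ (ρ n + c') * d := by nlinarith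
    nlinarith [hpos n, mul_le_mul_of_nonneg_right h2 (hpos n).le]
  have hεs : ∀ n, ε ≤ s n := by
    intro n
    obtain ⟨k, hk, hk2⟩ := hinf n
    refine le_trans ?_ (hanti hk)
    simp only [hs]
    rw [le_div_iff₀ (hpos _)]
    linarith
  have hbdd : BddBelow (Set.range s) := ⟨ε, by rintro _ ⟨n, rfl⟩; exact hεs n⟩
  have hlim := tendsto_atTop_ciInf hanti hbdd
  set L : ℝ := ⨅ n, s n with hL
  have hLε : ε ≤ L := le_ciInf hεs
  have hL0 : 0 < L := hε.trans_le hLε
  have h1 : ∀ᶠ n in atTop, s n < (1 + 1 / (2 * d)) * L := by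
    refine hlim.eventually (gt_mem_nhds ?_)
    have : 0 < 1 / (2 * (d : ℝ)) * L := by positivity
    linarith
  have h2 : ∀ᶠ n : ℕ in atTop, 2 * (M + c') / L ≤ (2 : ℝ) ^ n :=
    (tendsto_pow_atTop_atTop_of_one_lt (by norm_num : (1 : ℝ) < 2)).eventually_ge_atTop _
  obtain ⟨N, hN⟩ := (h1.and h2).exists_forall_of_atTop
  refine ⟨N, fun n hn => ?_⟩
  obtain ⟨h3, h4⟩ := hN n hn
  have h5 : L ≤ s (n + 1) := ciInf_le hbdd _
  simp only [hs] at h3 h5
  rw [div_lt_iff₀ (hpos _)] at h3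
  rw [le_div_iff₀ (hpos _), pow_succ] at h5
  have h6 : (2 : ℝ) ^ n ≤ (d : ℝ) ^ n := pow_le_pow_left₀ (by norm_num) hd2 n
  rw [div_le_iff₀ hL0] at h4
  have h7 : 2 * (M + c') ≤ (d : ℝ) ^ n * L := h4.trans (mul_le_mul_of_nonneg_right h6 hL0.le)
  have h8 : 0 < L * (d : ℝ) ^ n := mul_pos hL0 (hpos n)
  have h9 : (e : ℝ) * (ρ n + c') ≤ e * ((1 + 1 / (2 * d)) * L * (d : ℝ) ^ n) :=
    mul_le_mul_of_nonneg_left h3.le he0
  have h10 : (e : ℝ) * (1 / (2 * d)) ≤ 1 / 2 := by
    rw [mul_one_div, div_le_iff₀ (by positivity)]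
    linarith
  have h11 : (e : ℝ) * ((1 + 1 / (2 * d)) * L * (d : ℝ) ^ n) ≤
      (e + 1 / 2) * (L * (d : ℝ) ^ n) := by
    have h12 := mul_le_mul_of_nonneg_right h10 h8.le
    nlinarith
  have h13 : ((e : ℝ) + 1) * (L * (d : ℝ) ^ n) ≤ d * (L * (d : ℝ) ^ n) :=
    mul_le_mul_of_nonneg_right hed h8.le
  have h14 : 0 ≤ (e : ℝ) * c' := mul_nonneg he0 hc'0
  nlinarith

variable {K : Type*} [Field K] {m d e : ℕ}

theorem eval_bind_iterate (Φ : Fin (m + 1) → MvPolynomial (Fin (m + 1)) K)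
    (k : ℕ) (x : Fin (m + 1) → K) (G : MvPolynomial (Fin (m + 1)) K) :
    eval x ((fun G => bind₁ Φ G)^[k] G) = eval ((pm Φ)^[k] x) G := by
  induction k generalizing x G with
  | zero => rfl
  | succ k ih =>
    rw [Function.iterate_succ_apply, ih, Function.iterate_succ_apply']
    exact MvPolynomial.eval₂Hom_bind₁ (RingHom.id K) ((pm Φ)^[k] x) Φ G

/-- The size of a point. -/
noncomputable def sz (v : AbsoluteValue K ℝ) (x : Fin (m + 1) → K) : ℝ :=
  Finset.univ.sup' ⟨0, Finset.mem_univ 0⟩ (fun i : Fin (m + 1) => max 1 (v (x i)))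

theorem le_sz (v : AbsoluteValue K ℝ) (x : Fin (m + 1) → K) (i : Fin (m + 1)) :
    v (x i) ≤ sz v x :=
  (le_max_right _ _).trans
    (Finset.le_sup' (fun i : Fin (m + 1) => max 1 (v (x i))) (Finset.mem_univ i))

theorem one_le_sz (v : AbsoluteValue K ℝ) (x : Fin (m + 1) → K) : 1 ≤ sz v x :=
  (le_max_left _ _).trans
    (Finset.le_sup' (fun i : Fin (m + 1) => max 1 (v (x i))) (Finset.mem_univ 0))

/-- **Growth theorem for maps.** If an orbit has maximal growth with respect to an absolute value,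
and the composition of `F` with an iterate of the map is dominated by a power of the last
coordinate, then the return set of `F` is finite. -/
theorem growth (v : AbsoluteValue K ℝ) (hd : 2 ≤ d) (he : e < d)
    {Φ : Fin (m + 1) → MvPolynomial (Fin (m + 1)) K} (deg : ∀ i, (Φ i).totalDegree ≤ wd d e i)
    (x : Fin (m + 1) → K)
    (hgr : ∃ ε > 0, ∀ N, ∃ n, N ≤ n ∧ ∃ i, ε * (d : ℝ) ^ n ≤ Real.log (v ((pm Φ)^[n] x i)))
    {F : MvPolynomial (Fin (m + 1)) K} (k : ℕ)
    (hk : coeff (Finsupp.single (Fin.last m) (((fun G => bind₁ Φ G)^[k] F).totalDegree))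
      ((fun G => bind₁ Φ G)^[k] F) ≠ 0) :
    {n | eval ((pm Φ)^[n] x) F = 0}.Finite := by
  classical
  obtain ⟨ε, hε, hinf⟩ := hgr
  set y : ℕ → Fin (m + 1) → K := fun n => (pm Φ)^[n] x with hy
  have hy1 : ∀ n i, y (n + 1) i = eval (y n) (Φ i) := by
    intro n i
    simp only [hy]
    rw [Function.iterate_succ_apply', pm]
  set R : ℕ → ℝ := fun n => sz v (y n) with hRdef
  have hR1 : ∀ n, 1 ≤ R n := fun n => one_le_sz v _
  have hR0 : ∀ n, 0 < R n := fun n => zero_lt_one.trans_le (hR1 n)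
  set C : ℝ := 1 + ∑ i, ∑ s ∈ (Φ i).support, v (coeff s (Φ i)) with hC
  have hCi0 : ∀ i, 0 ≤ ∑ s ∈ (Φ i).support, v (coeff s (Φ i)) :=
    fun i => Finset.sum_nonneg fun s _ => v.nonneg _
  have hC1 : 1 ≤ C := by
    have := Finset.sum_nonneg fun i (_ : i ∈ (Finset.univ : Finset (Fin (m + 1)))) => hCi0 i
    rw [hC]
    linarith
  have hCi : ∀ i, ∑ s ∈ (Φ i).support, v (coeff s (Φ i)) ≤ C := by
    intro i
    have := Finset.single_le_sum (f := fun i => ∑ s ∈ (Φ i).support, v (coeff s (Φ i)))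
      (fun i _ => hCi0 i) (Finset.mem_univ i)
    rw [hC]
    linarith
  have hC0 : 0 < C := zero_lt_one.trans_le hC1
  have hlast : ∀ n, v (y (n + 1) (Fin.last m)) ≤ C * R n ^ d := by
    intro n
    rw [hy1]
    have h1 := deg (Fin.last m)
    rw [wd, if_pos rfl] at h1
    refine (eval_le v h1 _ (R n) (hR1 n) fun i => le_sz v (y n) i).trans ?_
    exact mul_le_mul_of_nonneg_right (hCi _) (by have := hR0 n; positivity)
  have hold : ∀ n (i : Fin m), v (y (n + 1) i.castSucc) ≤ C * R n ^ e := by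
    intro n i
    rw [hy1]
    have h1 := deg i.castSucc
    rw [wd, if_neg (Fin.castSucc_lt_last i).ne] at h1
    refine (eval_le v h1 _ (R n) (hR1 n) fun i => le_sz v (y n) i).trans ?_
    exact mul_le_mul_of_nonneg_right (hCi _) (by have := hR0 n; positivity)
  have hr1 : ∀ n, 1 ≤ C * R n ^ e := fun n =>
    one_le_mul_of_one_le_of_one_le hC1 (one_le_pow₀ (hR1 n))
  have hRs : ∀ n, R (n + 1) ≤ max (C * R n ^ e) (v (y (n + 1) (Fin.last m))) := by
    intro n
    refine Finset.sup'_le _ _ fun i _ => ?_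
    refine max_le ((hr1 n).trans (le_max_left _ _)) ?_
    refine Fin.lastCases ?_ (fun i => ?_) i
    · exact le_max_right _ _
    · exact (hold n i).trans (le_max_left _ _)
  have hRd : ∀ n, R (n + 1) ≤ C * R n ^ d := by
    intro n
    refine (hRs n).trans (max_le ?_ (hlast n))
    exact mul_le_mul_of_nonneg_left (pow_le_pow_right₀ (hR1 n) he.le) hC0.le
  have hlog : ∀ M : ℝ, ∃ N, ∀ n, N ≤ n →
      e * Real.log (R n) + M ≤ Real.log (R (n + 1)) := by
    refine incr hd he (fun n => Real.log (R n)) (Real.log C) (Real.log_nonneg hC1) ?_ ε hε ?_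
    · intro n
      have h1 := Real.log_le_log (hR0 _) (hRd n)
      rwa [Real.log_mul hC0.ne' (pow_ne_zero _ (hR0 n).ne'), Real.log_pow] at h1
    · intro N
      obtain ⟨n, hn, i, h1⟩ := hinf N
      refine ⟨n, hn, h1.trans ?_⟩
      have h2 : 0 < Real.log (v ((pm Φ)^[n] x i)) := lt_of_lt_of_le (by positivity) h1
      have h3 : 0 < v ((pm Φ)^[n] x i) := by
        rcases (v.nonneg ((pm Φ)^[n] x i)).eq_or_lt with h4 | h4
        · rw [← h4, Real.log_zero] at h2
          exact absurd h2 (lt_irrefl _)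
        · exact h4
      exact Real.log_le_log h3 (le_sz v (y n) i)
  set G := (fun G => bind₁ Φ G)^[k] F with hG
  set cG := v (coeff (Finsupp.single (Fin.last m) G.totalDegree) G) with hcG
  have hcG0 : 0 < cG := v.pos hk
  set S : ℝ := ∑ s ∈ G.support, v (coeff s G) with hS
  have hS0 : 0 ≤ S := Finset.sum_nonneg fun s _ => v.nonneg _
  have hbig : ∃ N, ∀ n, N ≤ n → C * R n ^ e < R (n + 1) ∧
      S * (C * R n ^ e) < cG * R (n + 1) := by
    have hx : 0 < (S + 1) / cG + 1 := by positivity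
    obtain ⟨N, hN⟩ := hlog (Real.log ((S + 1) / cG + 1) + Real.log C)
    refine ⟨N, fun n hn => ?_⟩
    have h1 := hN n hn
    have hr0 : 0 < C * R n ^ e := zero_lt_one.trans_le (hr1 n)
    have h2 : C * R n ^ e * ((S + 1) / cG + 1) ≤ R (n + 1) := by
      rw [← Real.log_le_log_iff (by positivity) (hR0 _),
        Real.log_mul hr0.ne' hx.ne', Real.log_mul hC0.ne' (pow_ne_zero _ (hR0 n).ne'),
        Real.log_pow]
      linarith
    have h3 : C * R n ^ e * ((S + 1) / cG + 1) * cG ≤ R (n + 1) * cG :=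
      mul_le_mul_of_nonneg_right h2 hcG0.le
    have h4 : (S + 1) / cG * cG = S + 1 := div_mul_cancel₀ _ hcG0.ne'
    have h5 : C * R n ^ e * ((S + 1) / cG + 1) * cG =
        C * R n ^ e * (S + 1) + C * R n ^ e * cG := by
      calc C * R n ^ e * ((S + 1) / cG + 1) * cG
          = C * R n ^ e * ((S + 1) / cG * cG + cG) := by ring
        _ = C * R n ^ e * (S + 1) + C * R n ^ e * cG := by rw [h4]; ring
    have h6 : 0 < C * R n ^ e * cG := mul_pos hr0 hcG0
    refine ⟨?_, ?_⟩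
    · have h7 : 0 < C * R n ^ e * ((S + 1) / cG) := by positivity
      nlinarith
    · nlinarith
  obtain ⟨N, hN⟩ := hbig
  have hfin : ∀ n, N + 1 ≤ n → eval (y n) G ≠ 0 := by
    intro n hn
    obtain ⟨j, rfl⟩ : ∃ j, n = j + 1 := ⟨n - 1, by omega⟩
    obtain ⟨h1, h2⟩ := hN j (by omega)
    refine eval_ne_zero v (y (j + 1)) (C * R j ^ e) (R (j + 1)) (hr1 j) h1.le ?_
      (fun i => hold j i) G h2
    apply le_antisymm
    · exact le_sz v (y (j + 1)) (Fin.last m)
    · rcases le_max_iff.1 (hRs j) with h5 | h5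
      · exact absurd h5 (not_le.2 h1)
      · exact h5
  refine finite_of_shift_set k (((Finset.range (N + 1)).finite_toSet).subset fun n hn => ?_)
  by_contra h1
  have h2 : N + 1 ≤ n := by
    by_contra h3
    exact h1 (by simpa using h3)
  refine hfin n h2 ?_
  rw [hG, eval_bind_iterate, hy, ← Function.iterate_add_apply, add_comm k n]
  exact hn

end Pool.Agent.Helper86.GT
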