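import Pool.Agent.Helper86.GT.Growth

/-!
# Maps with a dominant last component: the gap theorem
-/

set_option autoImplicit false

namespace Pool.Agent.Helper86.GT

open MvPolynomial Filter Topology
open Pool.Agent.Helper86.MQ (pm)
open Pool.Agent.Helper86.RR (eval_ne_zero eval_le finite_of_shift_set)
open Pool.Agent.Helper26.GT (wd Dom ca)

variable {K : Type*} [Field K] {m d e : ℕ}

/-- The value at a point whose last coordinate dominates: lower bound. -/
theorem eval_lower (v : AbsoluteValue K ℝ) (x : Fin (m + 1) → K) (r R : ℝ) (hr : 1 ≤ r)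
    (hrR : r ≤ R) (hL : v (x (Fin.last m)) = R) (hx : ∀ i : Fin m, v (x i.castSucc) ≤ r)
    (G : MvPolynomial (Fin (m + 1)) K) (D : ℕ) (hD : G.totalDegree ≤ D) :
    R * (v (coeff (Finsupp.single (Fin.last m) D) G) * R ^ D) ≤
      R * v (eval x G) + (∑ s ∈ G.support, v (coeff s G)) * (r * R ^ D) := by
  classical
  set u : Fin (m + 1) →₀ ℕ := Finsupp.single (Fin.last m) D with hu
  have hR1 : 1 ≤ R := hr.trans hrR
  have hR0 : 0 < R := zero_lt_one.trans_le hR1
  have hr0 : 0 < r := zero_lt_one.trans_le hr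
  have hS : 0 ≤ ∑ s ∈ G.support, v (coeff s G) := Finset.sum_nonneg fun s _ => v.nonneg _
  have h1 : coeff u G * x (Fin.last m) ^ D +
      ∑ s ∈ G.support.erase u, coeff s G * ∏ j, x j ^ s j = eval x G := by
    have hu1 : ∏ j, x j ^ u j = x (Fin.last m) ^ D := by
      rw [Finset.prod_eq_single (Fin.last m)]
      · simp [hu]
      · intro b _ hb
        simp [hu, hb.symm]
      · simp
    rw [eval_eq']
    by_cases hc : u ∈ G.support
    · rw [← Finset.add_sum_erase _ _ hc, hu1]
    · rw [Finset.erase_eq_of_notMem hc, notMem_support_iff.1 hc, zero_mul, zero_add]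
  have h2 : v (coeff u G) * R ^ D ≤ v (eval x G) +
      ∑ s ∈ G.support.erase u, v (coeff s G) * ∏ j, v (x j) ^ s j := by
    have h3 : coeff u G * x (Fin.last m) ^ D =
        eval x G + -∑ s ∈ G.support.erase u, coeff s G * ∏ j, x j ^ s j := by
      rw [← h1]
      ring
    rw [← hL, ← map_pow, ← map_mul, h3]
    refine (v.add_le _ _).trans (add_le_add le_rfl ?_)
    rw [map_neg_eq_map]
    refine (v.sum_le _ _).trans (Finset.sum_le_sum fun s _ => ?_)
    rw [map_mul, map_prod]
    simp only [map_pow]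
    exact le_rfl
  have h4 : ∀ s ∈ G.support.erase u, R * ∏ j, v (x j) ^ s j ≤ r * R ^ D := by
    intro s hs
    rw [Finset.mem_erase] at hs
    have hdeg : s.degree ≤ D := (le_totalDegree hs.2).trans hD
    rw [Fin.prod_univ_castSucc, hL]
    by_cases hex : ∃ i : Fin m, s i.castSucc ≠ 0
    · obtain ⟨i, hi⟩ := hex
      rw [← Finset.mul_prod_erase _ _ (Finset.mem_univ i)]
      have h5 : v (x i.castSucc) ^ s i.castSucc ≤ r * R ^ (s i.castSucc - 1) := by
        obtain ⟨k, hk⟩ := Nat.exists_eq_succ_of_ne_zero hi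
        rw [hk, Nat.succ_sub_one, pow_succ, mul_comm]
        exact mul_le_mul (hx i) (pow_le_pow_left₀ (v.nonneg _) ((hx i).trans hrR) _)
          (pow_nonneg (v.nonneg _) _) hr0.le
      have h6 : ∏ j ∈ Finset.univ.erase i, v (x (Fin.castSucc j)) ^ s j.castSucc ≤
          R ^ ∑ j ∈ Finset.univ.erase i, s j.castSucc := by
        rw [← Finset.prod_pow_eq_pow_sum]
        refine Finset.prod_le_prod (fun j _ => pow_nonneg (v.nonneg _) _) fun j _ => ?_
        exact pow_le_pow_left₀ (v.nonneg _) ((hx j).trans hrR) _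
      have h7 : s.degree = s i.castSucc + ∑ j ∈ Finset.univ.erase i, s j.castSucc +
          s (Fin.last m) := by
        rw [Finsupp.degree_eq_sum, Fin.sum_univ_castSucc,
          Finset.add_sum_erase _ (fun j : Fin m => s j.castSucc) (Finset.mem_univ i)]
      calc R * ((v (x i.castSucc) ^ s i.castSucc *
            ∏ j ∈ Finset.univ.erase i, v (x (Fin.castSucc j)) ^ s j.castSucc) * R ^ s (Fin.last m))
          ≤ R * (r * R ^ (s i.castSucc - 1) *
            R ^ (∑ j ∈ Finset.univ.erase i, s j.castSucc) * R ^ s (Fin.last m)) := by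
            refine mul_le_mul_of_nonneg_left ?_ hR0.le
            refine mul_le_mul_of_nonneg_right ?_ (by positivity)
            exact mul_le_mul h5 h6 (Finset.prod_nonneg fun j _ => pow_nonneg (v.nonneg _) _)
              (by positivity)
        _ = r * R ^ s.degree := by
            rw [h7]
            obtain ⟨k, hk⟩ := Nat.exists_eq_succ_of_ne_zero hi
            rw [hk, Nat.succ_sub_one]
            simp only [Nat.succ_eq_add_one]
            ring
        _ ≤ r * R ^ D := mul_le_mul_of_nonneg_left (pow_le_pow_right₀ hR1 hdeg) hr0.le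
    · push Not at hex
      have h5 : s = Finsupp.single (Fin.last m) (s (Fin.last m)) := by
        ext j
        refine Fin.lastCases ?_ (fun i => ?_) j
        · simp
        · rw [hex i]
          simp
      have h6 : s.degree = s (Fin.last m) := by
        rw [Finsupp.degree_eq_sum, Fin.sum_univ_castSucc]
        simp [hex]
      have h7 : s (Fin.last m) < D := by
        refine lt_of_le_of_ne (h6 ▸ hdeg) fun h8 => hs.1 ?_
        rw [h5, h8]
      have h8 : ∏ i : Fin m, v (x i.castSucc) ^ s i.castSucc = 1 :=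
        Finset.prod_eq_one fun i _ => by rw [hex i, pow_zero]
      rw [h8, one_mul]
      calc R * R ^ s (Fin.last m) = R ^ (s (Fin.last m) + 1) := by ring
        _ ≤ R ^ D := pow_le_pow_right₀ hR1 h7
        _ ≤ r * R ^ D := le_mul_of_one_le_left (by positivity) hr
  calc R * (v (coeff u G) * R ^ D)
      ≤ R * (v (eval x G) + ∑ s ∈ G.support.erase u, v (coeff s G) * ∏ j, v (x j) ^ s j) :=
        mul_le_mul_of_nonneg_left h2 hR0.le
    _ = R * v (eval x G) +
        ∑ s ∈ G.support.erase u, v (coeff s G) * (R * ∏ j, v (x j) ^ s j) := by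
        rw [mul_add, Finset.mul_sum]
        congr 1
        refine Finset.sum_congr rfl fun s _ => by ring
    _ ≤ R * v (eval x G) + ∑ s ∈ G.support.erase u, v (coeff s G) * (r * R ^ D) :=
        add_le_add le_rfl
          (Finset.sum_le_sum fun s hs => mul_le_mul_of_nonneg_left (h4 s hs) (v.nonneg _))
    _ = R * v (eval x G) + (∑ s ∈ G.support.erase u, v (coeff s G)) * (r * R ^ D) := by
        rw [Finset.sum_mul]
    _ ≤ R * v (eval x G) + (∑ s ∈ G.support, v (coeff s G)) * (r * R ^ D) := by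
        refine add_le_add le_rfl (mul_le_mul_of_nonneg_right ?_ (by positivity))
        exact Finset.sum_le_sum_of_subset_of_nonneg (Finset.erase_subset _ _)
          fun s _ _ => v.nonneg _

/-- The escaping region. -/
def Es (v : AbsoluteValue K ℝ) (lam R : ℝ) (x : Fin (m + 1) → K) : Prop :=
  R ≤ v (x (Fin.last m)) ∧ ∀ i : Fin m, lam * v (x i.castSucc) ≤ v (x (Fin.last m))

/-- **Gap theorem.** Either the size of the orbit grows at most like `exp (C * e ^ n)` (like
`exp (C * n)` if `e = 1`), or all return sets are finite. -/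
theorem gap (v : AbsoluteValue K ℝ) (hd : 2 ≤ d) (he : e < d)
    {Φ : Fin (m + 1) → MvPolynomial (Fin (m + 1)) K} (deg : ∀ i, (Φ i).totalDegree ≤ wd d e i)
    (top : ca d Φ ≠ 0) (x : Fin (m + 1) → K) :
    (∃ C : ℝ, ∀ n i, Real.log (max 1 (v ((pm Φ)^[n] x i))) ≤
      C * ∑ j ∈ Finset.range (n + 1), (e : ℝ) ^ j) ∨
    (∀ (F : MvPolynomial (Fin (m + 1)) K) (k : ℕ),
      coeff (Finsupp.single (Fin.last m) (((fun G => bind₁ Φ G)^[k] F).totalDegree))
        ((fun G => bind₁ Φ G)^[k] F) ≠ 0 → {n | eval ((pm Φ)^[n] x) F = 0}.Finite) := by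
  classical
  set y : ℕ → Fin (m + 1) → K := fun n => (pm Φ)^[n] x with hy
  have hy1 : ∀ n i, y (n + 1) i = eval (y n) (Φ i) := by
    intro n i
    simp only [hy]
    rw [Function.iterate_succ_apply', pm]
  set C : ℝ := 1 + ∑ i, ∑ s ∈ (Φ i).support, v (coeff s (Φ i)) with hC
  have hCi0 : ∀ i, 0 ≤ ∑ s ∈ (Φ i).support, v (coeff s (Φ i)) :=
    fun i => Finset.sum_nonneg fun s _ => v.nonneg _
  have hC1 : 1 ≤ C := by
    have := Finset.sum_nonneg fun i (_ : i ∈ (Finset.univ : Finset (Fin (m + 1)))) => hCi0 i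
    rw [hC]
    linarith
  have hCi : ∀ i, ∑ s ∈ (Φ i).support, v (coeff s (Φ i)) ≤ C := by
    intro i
    have := Finset.single_le_sum (f := fun i => ∑ s ∈ (Φ i).support, v (coeff s (Φ i)))
      (fun i _ => hCi0 i) (Finset.mem_univ i)
    rw [hC]
    linarith
  have hC0 : 0 < C := zero_lt_one.trans_le hC1
  have hdL : (Φ (Fin.last m)).totalDegree ≤ d := by
    have h1 := deg (Fin.last m)
    rwa [wd, if_pos rfl] at h1
  have hdi : ∀ i : Fin m, (Φ i.castSucc).totalDegree ≤ e := by
    intro i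
    have h1 := deg i.castSucc
    rwa [wd, if_neg (Fin.castSucc_lt_last i).ne] at h1
  have hold : ∀ n (i : Fin m) (R : ℝ), 1 ≤ R → (∀ j, v (y n j) ≤ R) →
      v (y (n + 1) i.castSucc) ≤ C * R ^ e := by
    intro n i R hR hyR
    rw [hy1]
    refine (eval_le v (hdi i) _ R hR hyR).trans ?_
    exact mul_le_mul_of_nonneg_right (hCi _) (by positivity)
  set α : ℝ := v (ca d Φ) with hα
  have hα0 : 0 < α := v.pos top
  set lam : ℝ := 1 + 2 * C / α with hlam
  have hlam1 : 1 ≤ lam := by
    have : 0 ≤ 2 * C / α := by positivity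
    linarith
  have hlam0 : 0 < lam := zero_lt_one.trans_le hlam1
  have hlamC : C / lam ≤ α / 2 := by
    rw [div_le_iff₀ hlam0, hlam]
    have : α / 2 * (1 + 2 * C / α) = α / 2 + C := by field_simp
    rw [this]
    linarith
  set R₀ : ℝ := lam + 4 / α + 2 * lam * C / α with hR₀
  have hp1 : 0 ≤ 4 / α := by positivity
  have hp2 : 0 ≤ 2 * lam * C / α := by positivity
  have hR₀lam : lam ≤ R₀ := by linarith
  have hR₀1 : 1 ≤ R₀ := hlam1.trans hR₀lam
  -- the lower bound in the escaping region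
  have hlow : ∀ n, Es v lam R₀ (y n) →
      α / 2 * v (y n (Fin.last m)) ^ d ≤ v (y (n + 1) (Fin.last m)) := by
    intro n hE
    set ρ := v (y n (Fin.last m)) with hρ
    have hρ1 : 1 ≤ ρ := hR₀1.trans hE.1
    have hρ0 : 0 < ρ := zero_lt_one.trans_le hρ1
    have h1 := eval_lower v (y n) (ρ / lam) ρ
      ((one_le_div hlam0).2 (hR₀lam.trans hE.1)) (div_le_self hρ0.le hlam1) rfl
      (fun i => by rw [le_div_iff₀ hlam0, mul_comm]; exact hE.2 i) (Φ (Fin.last m)) d hdL
    rw [← hy1] at h1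
    have h2 : (∑ s ∈ (Φ (Fin.last m)).support, v (coeff s (Φ (Fin.last m)))) *
        (ρ / lam * ρ ^ d) ≤ ρ * (α / 2 * ρ ^ d) := by
      calc (∑ s ∈ (Φ (Fin.last m)).support, v (coeff s (Φ (Fin.last m)))) * (ρ / lam * ρ ^ d)
          ≤ C * (ρ / lam * ρ ^ d) := mul_le_mul_of_nonneg_right (hCi _) (by positivity)
        _ = C / lam * (ρ * ρ ^ d) := by ring
        _ ≤ α / 2 * (ρ * ρ ^ d) := mul_le_mul_of_nonneg_right hlamC (by positivity)
        _ = ρ * (α / 2 * ρ ^ d) := by ring
    have h3 : ρ * (α * ρ ^ d) ≤ ρ * v (y (n + 1) (Fin.last m)) + ρ * (α / 2 * ρ ^ d) :=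
      h1.trans (add_le_add le_rfl h2)
    have h4 : ρ * (α / 2 * ρ ^ d) ≤ ρ * v (y (n + 1) (Fin.last m)) := by
      have h5 : ρ * (α * ρ ^ d) = ρ * (α / 2 * ρ ^ d) + ρ * (α / 2 * ρ ^ d) := by ring
      linarith
    exact le_of_mul_le_mul_left h4 hρ0
  have hbd : ∀ n, Es v lam R₀ (y n) → ∀ j, v (y n j) ≤ v (y n (Fin.last m)) := by
    intro n hE j
    refine Fin.lastCases le_rfl (fun i => ?_) j
    refine le_trans ?_ (hE.2 i)
    exact le_mul_of_one_le_left (v.nonneg _) hlam1
  have hstep : ∀ n, Es v lam R₀ (y n) → Es v lam R₀ (y (n + 1)) ∧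
      2 * v (y n (Fin.last m)) ≤ v (y (n + 1) (Fin.last m)) := by
    intro n hE
    have hb := hlow n hE
    set ρ := v (y n (Fin.last m)) with hρ
    have hρ1 : 1 ≤ ρ := hR₀1.trans hE.1
    have hρ0 : 0 < ρ := zero_lt_one.trans_le hρ1
    have h1 : 2 * ρ ≤ v (y (n + 1) (Fin.last m)) := by
      refine le_trans ?_ hb
      have h2 : 4 / α ≤ ρ := by linarith [hE.1]
      rw [div_le_iff₀ hα0] at h2
      have h3 : ρ ^ 2 ≤ ρ ^ d := pow_le_pow_right₀ hρ1 hd
      calc 2 * ρ = 4 / 2 * ρ := by norm_num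
        _ ≤ (ρ * α) / 2 * ρ := by
            refine mul_le_mul_of_nonneg_right ?_ hρ0.le
            linarith
        _ = α / 2 * ρ ^ 2 := by ring
        _ ≤ α / 2 * ρ ^ d := mul_le_mul_of_nonneg_left h3 (by positivity)
    refine ⟨⟨by linarith [hE.1], fun i => ?_⟩, h1⟩
    have h2 := hold n i ρ hρ1 (hbd n hE)
    refine le_trans (mul_le_mul_of_nonneg_left h2 hlam0.le) (le_trans ?_ hb)
    have h3 : 2 * lam * C / α ≤ ρ := by linarith [hE.1]
    rw [div_le_iff₀ hα0] at h3
    have h4 : ρ ^ (e + 1) ≤ ρ ^ d := pow_le_pow_right₀ hρ1 he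
    calc lam * (C * ρ ^ e) = (2 * lam * C) / 2 * ρ ^ e := by ring
      _ ≤ (ρ * α) / 2 * ρ ^ e := by
          refine mul_le_mul_of_nonneg_right ?_ (by positivity)
          linarith
      _ = α / 2 * ρ ^ (e + 1) := by ring
      _ ≤ α / 2 * ρ ^ d := mul_le_mul_of_nonneg_left h4 (by positivity)
  by_cases hex : ∃ n, Es v lam R₀ (y n)
  · right
    obtain ⟨n₀, hn₀⟩ := hex
    have hall : ∀ k, Es v lam R₀ (y (n₀ + k)) ∧ (2 : ℝ) ^ k ≤ v (y (n₀ + k) (Fin.last m)) := by
      intro k
      induction k with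
      | zero => exact ⟨hn₀, by simpa using hR₀1.trans hn₀.1⟩
      | succ k ih =>
        have h1 := hstep _ ih.1
        refine ⟨h1.1, ?_⟩
        rw [pow_succ, ← add_assoc]
        linarith [h1.2, ih.2]
    intro F k hk
    set G := (fun G => bind₁ Φ G)^[k] F with hG
    set cG := v (coeff (Finsupp.single (Fin.last m) G.totalDegree) G) with hcG
    have hcG0 : 0 < cG := v.pos hk
    set S : ℝ := ∑ s ∈ G.support, v (coeff s G) with hS
    have hS0 : 0 ≤ S := Finset.sum_nonneg fun s _ => v.nonneg _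
    obtain ⟨N, hN⟩ : ∃ N : ℕ, ∀ k, N ≤ k → 2 * (S * C) / (cG * α) + 1 ≤ (2 : ℝ) ^ k :=
      ((tendsto_pow_atTop_atTop_of_one_lt
        (by norm_num : (1 : ℝ) < 2)).eventually_ge_atTop _).exists_forall_of_atTop
    have hfin : ∀ k, N ≤ k → eval (y (n₀ + k + 1)) G ≠ 0 := by
      intro k hk
      obtain ⟨hE, h2k⟩ := hall k
      have hb := hlow _ hE
      obtain ⟨hE', -⟩ := hstep _ hE
      have hold' := fun i => hold (n₀ + k) i _ (hR₀1.trans hE.1) (hbd _ hE)
      set ρ := v (y (n₀ + k) (Fin.last m)) with hρ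
      have hρ1 : 1 ≤ ρ := hR₀1.trans hE.1
      have hρ0 : 0 < ρ := zero_lt_one.trans_le hρ1
      have h1 : 1 ≤ C * ρ ^ e := one_le_mul_of_one_le_of_one_le hC1 (one_le_pow₀ hρ1)
      have h4 : ρ ^ (e + 1) ≤ ρ ^ d := pow_le_pow_right₀ hρ1 he
      have h5 : 2 * (S * C) / (cG * α) + 1 ≤ ρ := (hN k hk).trans h2k
      have h6 : 2 * (S * C) < ρ * (cG * α) := by
        rw [← div_lt_iff₀ (by positivity)]
        linarith
      have h7 : S * (C * ρ ^ e) < cG * v (y (n₀ + k + 1) (Fin.last m)) := by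
        calc S * (C * ρ ^ e) = (2 * (S * C)) * (ρ ^ e / 2) := by ring
          _ < (ρ * (cG * α)) * (ρ ^ e / 2) := mul_lt_mul_of_pos_right h6 (by positivity)
          _ = cG * (α / 2 * ρ ^ (e + 1)) := by ring
          _ ≤ cG * (α / 2 * ρ ^ d) := by
              refine mul_le_mul_of_nonneg_left ?_ hcG0.le
              exact mul_le_mul_of_nonneg_left h4 (by positivity)
          _ ≤ cG * v (y (n₀ + k + 1) (Fin.last m)) := mul_le_mul_of_nonneg_left hb hcG0.le
      refine eval_ne_zero v (y (n₀ + k + 1)) (C * ρ ^ e) _ h1 ?_ rfl (fun i => hold' i) G h7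
      have h3 : 2 * lam * C / α ≤ ρ := by linarith [hE.1]
      rw [div_le_iff₀ hα0] at h3
      refine le_trans ?_ hb
      calc C * ρ ^ e ≤ lam * (C * ρ ^ e) := le_mul_of_one_le_left (by positivity) hlam1
        _ = (2 * lam * C) / 2 * ρ ^ e := by ring
        _ ≤ (ρ * α) / 2 * ρ ^ e := by
            refine mul_le_mul_of_nonneg_right ?_ (by positivity)
            linarith
        _ = α / 2 * ρ ^ (e + 1) := by ring
        _ ≤ α / 2 * ρ ^ d := mul_le_mul_of_nonneg_left h4 (by positivity)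
    refine finite_of_shift_set k
      (((Finset.range (n₀ + N + 1)).finite_toSet).subset fun n hn => ?_)
    by_contra h1
    have h2 : n₀ + N + 1 ≤ n := by
      by_contra h3
      exact h1 (by simpa using h3)
    obtain ⟨j, rfl⟩ : ∃ j, n = n₀ + (N + j) + 1 := ⟨n - (n₀ + N + 1), by omega⟩
    refine hfin (N + j) (by omega) ?_
    rw [hG, eval_bind_iterate, hy, ← Function.iterate_add_apply, add_comm k]
    exact hn
  · left
    push Not at hex
    set B : ℝ := R₀ * (lam * C) with hB
    have hlC1 : 1 ≤ lam * C := one_le_mul_of_one_le_of_one_le hlam1 hC1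
    have hB1 : 1 ≤ B := one_le_mul_of_one_le_of_one_le hR₀1 hlC1
    have hB0 : 0 < B := zero_lt_one.trans_le hB1
    have hs : ∀ n, sz v (y (n + 1)) ≤ B * sz v (y n) ^ e := by
      intro n
      set r := sz v (y n) with hr
      have hr1 : 1 ≤ r := one_le_sz v _
      have hre : 1 ≤ r ^ e := one_le_pow₀ hr1
      have h1 : ∀ i : Fin m, v (y (n + 1) i.castSucc) ≤ C * r ^ e :=
        fun i => hold n i r hr1 fun j => le_sz v _ j
      have hCB : C ≤ B := by
        calc C = 1 * (1 * C) := by ring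
          _ ≤ R₀ * (lam * C) := mul_le_mul hR₀1
              (mul_le_mul_of_nonneg_right hlam1 hC0.le) (by positivity) (by positivity)
      have hRB : R₀ ≤ B := le_mul_of_one_le_right (by positivity) hlC1
      have hlB : lam * C ≤ B := le_mul_of_one_le_left (by positivity) hR₀1
      refine Finset.sup'_le _ _ fun i _ => max_le (one_le_mul_of_one_le_of_one_le hB1 hre) ?_
      refine Fin.lastCases ?_ (fun i => ?_) i
      · have h2 := hex (n + 1)
        rw [Es, not_and_or] at h2
        rcases h2 with h2 | h2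
        · push Not at h2
          calc v (y (n + 1) (Fin.last m)) ≤ R₀ := h2.le
            _ = R₀ * 1 := (mul_one _).symm
            _ ≤ B * r ^ e := mul_le_mul hRB hre zero_le_one hB0.le
        · push Not at h2
          obtain ⟨i, hi⟩ := h2
          calc v (y (n + 1) (Fin.last m)) ≤ lam * v (y (n + 1) i.castSucc) := hi.le
            _ ≤ lam * (C * r ^ e) := mul_le_mul_of_nonneg_left (h1 i) hlam0.le
            _ = (lam * C) * r ^ e := by ring
            _ ≤ B * r ^ e := mul_le_mul_of_nonneg_right hlB (by positivity)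
      · exact (h1 i).trans (mul_le_mul_of_nonneg_right hCB (by positivity))
    set M : ℝ := max (Real.log (sz v (y 0))) (Real.log B) with hM
    have hind : ∀ n, Real.log (sz v (y n)) ≤ M * ∑ j ∈ Finset.range (n + 1), (e : ℝ) ^ j := by
      intro n
      induction n with
      | zero =>
        rw [zero_add, Finset.sum_range_one, pow_zero, mul_one]
        exact le_max_left _ _
      | succ n ih =>
        have hz0 : 0 < sz v (y n) := zero_lt_one.trans_le (one_le_sz v _)
        have h1 := Real.log_le_log (zero_lt_one.trans_le (one_le_sz v (y (n + 1)))) (hs n)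
        rw [Real.log_mul hB0.ne' (pow_ne_zero _ hz0.ne'), Real.log_pow] at h1
        refine h1.trans ?_
        have h2 : (e : ℝ) * Real.log (sz v (y n)) ≤
            e * (M * ∑ j ∈ Finset.range (n + 1), (e : ℝ) ^ j) :=
          mul_le_mul_of_nonneg_left ih (Nat.cast_nonneg _)
        have h3 : ∑ j ∈ Finset.range (n + 1 + 1), (e : ℝ) ^ j =
            1 + e * ∑ j ∈ Finset.range (n + 1), (e : ℝ) ^ j := by
          rw [Finset.sum_range_succ', Finset.mul_sum, pow_zero, add_comm]
          congr 1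
          exact Finset.sum_congr rfl fun j _ => by rw [pow_succ, mul_comm]
        rw [h3]
        have h4 : Real.log B ≤ M := le_max_right _ _
        have h5 : M * (1 + e * ∑ j ∈ Finset.range (n + 1), (e : ℝ) ^ j) =
            M + e * (M * ∑ j ∈ Finset.range (n + 1), (e : ℝ) ^ j) := by ring
        rw [h5]
        exact add_le_add h4 h2
    refine ⟨M, fun n i => le_trans ?_ (hind n)⟩
    refine Real.log_le_log (zero_lt_one.trans_le (le_max_left _ _)) ?_
    exact Finset.le_sup' (fun i : Fin (m + 1) => max 1 (v (y n i))) (Finset.mem_univ i)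

/-- The gap theorem with `log⁺`. -/
theorem local_gap (v : AbsoluteValue K ℝ) (hd : 2 ≤ d) (he : e < d)
    {Φ : Fin (m + 1) → MvPolynomial (Fin (m + 1)) K} (deg : ∀ i, (Φ i).totalDegree ≤ wd d e i)
    (top : ca d Φ ≠ 0) (x : Fin (m + 1) → K) :
    (∃ C : ℝ, ∀ n i, Real.posLog (v ((pm Φ)^[n] x i)) ≤
      C * ∑ j ∈ Finset.range (n + 1), (e : ℝ) ^ j) ∨
    (∀ (F : MvPolynomial (Fin (m + 1)) K) (k : ℕ),
      coeff (Finsupp.single (Fin.last m) (((fun G => bind₁ Φ G)^[k] F).totalDegree))
        ((fun G => bind₁ Φ G)^[k] F) ≠ 0 → {n | eval ((pm Φ)^[n] x) F = 0}.Finite) := by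
  refine (gap v hd he deg top x).imp (fun ⟨C, hC⟩ => ⟨C, fun n i => ?_⟩) id
  rw [Real.posLog_eq_log_max_one (v.nonneg _)]
  exact hC n i

end Pool.Agent.Helper86.GT
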